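import Pool.Agent.H31.Q.Defs
import Pool.Agent.H77.Q.Defs

set_option autoImplicit false

/-!
From the sides of a code to the rooted sides (MP_a46c6f_co, full Q1).
-/

namespace Pool.Agent.H41.Q

open Pool.Agent.H98.Code

variable {V : Type}

/-- sides give rooted sides for every root -/
theorem rsides_of_sides {L : Submodule (ZMod 2) (V → K)} {S : (V → K) → Finset V → Prop}
    (hS : Pool.Agent.H31.Q.Sides L S) (e : V) :
    Pool.Agent.H77.Q.RSides L e (fun u Y => S u Y ∧ e ∉ Y) := by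
  classical
  refine ⟨fun u Y h => h.2, fun u Y h => (hS.mem u Y h.1).2, ?_, ?_, ?_⟩
  · intro u hu huz hue hu0 _
    obtain ⟨Y, hY⟩ := hS.ex u hu
    obtain ⟨Y', hY', heY'⟩ : ∃ Y', S u Y' ∧ e ∉ Y' := by
      by_cases he : e ∈ Y
      · obtain ⟨Y', h1, h2⟩ := hS.compl u Y hY
        exact ⟨Y', h1, fun h3 => ((h2 e).1 h3).2 he⟩
      · exact ⟨Y, hY, he⟩
    by_cases hne : Y'.Nonempty
    · exact Or.inr ⟨Y', hne, hY', heY'⟩
    · rw [Finset.not_nonempty_iff_eq_empty] at hne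
      rw [hne] at hY'
      exact Or.inl (hS.wc u hY' huz hu0)
  · rintro u Y ⟨hY, heY⟩ k hk hcov
    obtain ⟨k', hk', e1, e2, e3, -, -⟩ := hS.part u Y hY k hk hcov
    exact ⟨k', hk', e1, e2, e3⟩
  · rintro u Y ⟨hY, heY⟩ hi k hk hkz hk0 _ hcov hoff
    obtain ⟨Y', hYY, hY'⟩ := hS.mono hY hi hk hcov hoff
    by_cases hne : Y'.Nonempty
    · exact Or.inr ⟨Y', hYY, hne, hY', fun h => heY (hYY h)⟩
    · rw [Finset.not_nonempty_iff_eq_empty] at hne
      rw [hne] at hY'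
      exact Or.inl (hS.wc k hY' hkz hk0)

end Pool.Agent.H41.Q
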