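import Pool.Agent.H41.Q.Minor
import Pool.Agent.H41.Q.Lp
import Pool.Agent.H16.FQ.Adapt
import Pool.Agent.H17.P3.Glue
import Pool.Agent.H17.P3.TreeEnd
import Pool.Agent.H62.Ind.P3

set_option autoImplicit false

/-!
The trees of the rooted minors from the side interface (MP_a46c6f_co, full Q1).
-/

namespace Pool.Agent.H41.Q

open Finset Pool.Agent.H98.Code Pool.Agent.H26.TR Pool.Agent.H77.Q
open Pool.Agent.H45.TR (Parts W N sg)

/-- the heart, matrix form -/
def Core : Prop :=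
  ∀ (V : Type) [Fintype V] [DecidableEq V] (L : Submodule (ZMod 2) (V → K)) (e : V)
    (H : V → V → ZMod 2) (S : (V → K) → Finset V → Prop), IsCode L → Pool.Agent.H17.TR.IsMat L H →
    RSides L e S →
    ∃ M : V → V → ZMod 2, (∀ x y, M x y = M y x) ∧ (∀ x, M e x = 0) ∧
      (∀ u, u ≠ e → ∀ v, (∑ w, H u w * (M u v + M w v)) = if u = v then 1 else 0) ∧
      Pool.Agent.H17.P3.Pairs M ∧ Pool.Agent.H17.P3.P4Split M

/-- the heart, graph form -/
def Heart : Prop :=
  ∀ (X : Type) [Fintype X] [DecidableEq X] (B : Submodule (ZMod 2) (X → K)) (r : X)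
    (S : (X → K) → Finset X → Prop), IsCode B → NoZ B → RSides B r S → (graph B).IsTree

/-- the graph form from the matrix form -/
theorem heart_of (h : Core) : Heart := by
  intro X _ _ B r S hB hz hS
  obtain ⟨H, hs, hm⟩ := exists_matrix hB hz
  have hH : Pool.Agent.H17.TR.IsMat B H := ⟨hs, hm⟩
  have hH' : Pool.Agent.H32.AA.IsMat B H := ⟨hs, hm⟩
  have heq : graph B = Pool.Agent.H17.TR.GrH H := by
    ext v w
    rw [Pool.Agent.H32.AA.adj_iff hH', hH.adj]
  rw [heq]
  obtain ⟨M, hsym, he, hinv, hp, h4⟩ := h X B r H S hB hH hS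
  exact Pool.Agent.H17.P3.tree_end X r H M hH.sym hsym he hinv hp
    (Pool.Agent.H62.Ind.p3 X M hsym hp h4)

/-- the graphs of the rooted minors are trees -/
theorem tree_of (h : Heart) {V : Type} [Fintype V] [DecidableEq V]
    {L : Submodule (ZMod 2) (V → K)} (hS : ∀ e : V, ∃ S, RSides L e S) (e : V) (D : V → K)
    (P : Finset (Finset V)) (M0 : Finset V) (t : Finset V → V)
    (hH : Pool.Agent.H16.FQ.HypQ L e D) (_hD : D ∈ L) (_hDe : D e = 0) (hP : IsParts L e D P)
    (_hM0 : M0 ∈ P) (_hk : ∃ M ∈ P, M ≠ M0) (ht : ∀ M ∈ P.erase M0, t M ∈ M)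
    (h1 : IsCode (N L D (P.erase M0) t)) (h2 : NoZ (N L D (P.erase M0) t)) :
    (graph (N L D (P.erase M0) t)).IsTree := by
  have hparts : Parts L e D P :=
    ⟨fun M hM => (hP.mem M hM).1, fun M hM => (hP.mem M hM).2.1, fun M hM => (hP.mem M hM).2.2,
      hP.disj, hP.cover, hP.union⟩
  have hQ : P.erase M0 ⊆ P := Finset.erase_subset _ _
  have heW : ∀ M ∈ P.erase M0, e ∉ M := fun M hM => (hP.mem M (hQ hM)).2.1
  obtain ⟨S, hSe⟩ := hS e
  exact h _ _ _ _ h1 h2 (rsides_minor hH.iso hparts hQ hH.letter ht heW hSe)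

end Pool.Agent.H41.Q
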