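import Pool.Agent.H41.Q.Tree
import Pool.Agent.H67.Q.Side
import Pool.Agent.H16.FQ.Plug

set_option autoImplicit false

/-!
Permutation graphs without removable circuits (MP_a46c6f_co, full Q1): assembly.
-/

namespace Pool.Agent.H41.Q

open SimpleGraph Pool.Agent.H5.Goddyn Pool.Agent.H98.TC Pool.Agent.H64.Pent Pool.Agent.H98.Code
open Pool.Agent.H77.Q

theorem core : Core := by
  intro V _ _ L e H S hL hH hS
  exact Pool.Agent.H67.Q.code_side_sides hL hH hS

theorem full {V : Type*} [Finite V] (G : SimpleGraph V) (M C₁ C₂ : G.Subgraph)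
    (h : IsPermutationGraph G M C₁ C₂) (hrem : ∀ C : G.Subgraph, ¬ Removable G (wt M) C) :
    IsPetersenPair G M :=
  Pool.Agent.H16.FQ.petersen_of_heart (fun X _ _ B e S hB hz hS => heart_of core X B e S hB hz hS)
    G M C₁ C₂ h hrem

end Pool.Agent.H41.Q
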