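import Pool.Agent.H77.Q.Defs
import Pool.Agent.H45.TR.Minor

set_option autoImplicit false

/-!
The side interface for the rooted minors of a code with sides (MP_a46c6f_co, full Q1).
-/

namespace Pool.Agent.H41.Q

open Finset Pool.Agent.H98.Code Pool.Agent.H26.TR Pool.Agent.H77.Q
open Pool.Agent.H45.TR (Parts W N sg nmem_range_iff le_D eq_zero_h sg_ne sg_ne_zero sg_fst sg_h)

variable {V : Type} [Fintype V] [DecidableEq V]
variable {L : Submodule (ZMod 2) (V → K)} {e : V} {D : V → K} {P Q : Finset (Finset V)}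
  {h : Finset V → V} {S : (V → K) → Finset V → Prop}

/-- the sides of the words of the minor -/
def RS (L : Submodule (ZMod 2) (V → K)) (e : V) (D : V → K) (Q : Finset (Finset V))
    (h : Finset V → V) (S : (V → K) → Finset V → Prop) (u : W Q → K) (Y : Finset (W Q)) : Prop :=
  ∃ w ∈ L, ∃ Z, S w Z ∧ w e = 0 ∧ ZFree w ∧
    (∀ v, v ∉ Set.range (Subtype.val : W Q → V) → kf (w v) (sg D Q h v) = 0) ∧
    (u = fun x : W Q => w x.1) ∧ (∀ v ∈ Z, ∀ M ∈ Q, v ∉ M) ∧ ∀ x, x ∈ Y ↔ x.1 ∈ Z

/-- uniqueness of lifts -/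
theorem lift_zero (hP : Parts L e D P) (hQ : Q ⊆ P) (hh : ∀ M ∈ Q, h M ∈ M) {x : V → K}
    (hx : KD L D e x) (hW : ∀ v, v ∈ Set.range (Subtype.val : W Q → V) → x v = 0)
    (hx0 : ∀ M ∈ Q, x (h M) = 0) : x = 0 := by
  funext v
  by_cases hv : v ∈ Set.range (Subtype.val : W Q → V)
  · exact hW v hv
  · obtain ⟨M, hM, hvM⟩ := (nmem_range_iff Q v).1 hv
    rcases hP.union x hx M (hQ hM) with h1 | h1
    · exact absurd (hx0 M hM) (Pool.Agent.H26.TR.mem_sup.1 (h1 (hh M hM))).2
    · by_contra hne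
      have hve : v ≠ e := fun h0 => hP.nmem M (hQ hM) (h0 ▸ hvM)
      exact Finset.disjoint_left.1 h1 hvM (Pool.Agent.H26.TR.mem_sup.2 ⟨hve, hne⟩)

/-- splittings go down to the minor -/
theorem splits_down (hiso : ∀ u ∈ L, ∀ w ∈ L, form u w = 0) (hP : Parts L e D P) (hQ : Q ⊆ P)
    (hl : ∀ v, v ≠ e → (D v).1 = 1) (hh : ∀ M ∈ Q, h M ∈ M) (heW : ∀ M ∈ Q, e ∉ M) {u : V → K}
    (hus : ∀ v, v ∉ Set.range (Subtype.val : W Q → V) → kf (u v) (sg D Q h v) = 0)
    (hue : u e = 0) {g : V} (hg : Splits L u g) :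
    ∃ g', Splits (N L D Q h) (fun w => u w) g' := by
  obtain ⟨c₁, hc₁, c₂, hc₂, hsum, hg1, hg2, hd⟩ := hg
  have hv1 : ∀ v, v ≠ g → c₁ v = 0 ∨ c₁ v = u v := by
    intro v hv
    rcases hd v hv with h1 | h1
    · exact Or.inl h1
    · right
      rw [← hsum, Pi.add_apply, h1, add_zero]
  have hv2 : ∀ v, v ≠ g → c₂ v = 0 ∨ c₂ v = u v := by
    intro v hv
    rcases hd v hv with h1 | h1
    · right
      rw [← hsum, Pi.add_apply, h1, zero_add]
    · exact Or.inl h1
  have hgW : g ∈ Set.range (Subtype.val : W Q → V) := by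
    by_contra hgW
    obtain ⟨M, hM, hgM⟩ := (nmem_range_iff Q g).1 hgW
    have hge : g ≠ e := fun h0 => heW M hM (h0 ▸ hgM)
    have key : ∀ c : V → K, c ∈ L → c g = z → (∀ v, v ≠ g → c v = 0 ∨ c v = u v) →
        g ≠ h M ∧ c (h M) ≠ 0 := by
      intro c hc hcg hcv
      have hce : c e = 0 := by
        rcases hcv e (Ne.symm hge) with h1 | h1
        · exact h1
        · rw [h1, hue]
      have h0 := hiso c hc _ (hP.word M (hQ hM))
      unfold form at h0
      rw [← Finset.add_sum_erase _ _ (Finset.mem_univ g)] at h0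
      have hg3 : kf (c g) (pw D e M g) = 1 := by
        unfold pw
        rw [if_neg hge, if_pos hgM, hcg, kf_z_left]
        exact hl g hge
      rw [hg3] at h0
      by_contra hcon
      have hrest : ∑ x ∈ Finset.univ.erase g, kf (c x) (pw D e M x) = 0 := by
        apply Finset.sum_eq_zero
        intro x hx
        have hxg : x ≠ g := Finset.ne_of_mem_erase hx
        by_cases hxe : x = e
        · rw [hxe, hce, kf_zero_left]
        · unfold pw
          rw [if_neg hxe]
          by_cases hxM : x ∈ M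
          · rw [if_pos hxM]
            by_cases hxh : x = h M
            · have hc0 : c (h M) = 0 := by
                by_contra hne
                apply hcon
                exact ⟨fun h1 => hxg (hxh.trans h1.symm), hne⟩
              rw [hxh, hc0, kf_zero_left]
            · rcases hcv x hxg with h1 | h1
              · rw [h1, kf_zero_left]
              · rw [h1, ← sg_ne hP hQ hh hM hxM hxh]
                exact hus x ((nmem_range_iff Q x).2 ⟨M, hM, hxM⟩)
          · rw [if_neg hxM, kf_zero_right]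
      rw [hrest] at h0
      exact absurd h0 (by decide)
    obtain ⟨h1, h2⟩ := key c₁ hc₁ hg1 hv1
    obtain ⟨_, h3⟩ := key c₂ hc₂ hg2 hv2
    rcases hd (h M) (Ne.symm h1) with h4 | h4
    · exact h2 h4
    · exact h3 h4
  obtain ⟨g', rfl⟩ := hgW
  have hin : ∀ c : V → K, (∀ v, v ≠ (g' : V) → c v = 0 ∨ c v = u v) →
      ∀ v, v ∉ Set.range (Subtype.val : W Q → V) → kf (c v) (sg D Q h v) = 0 := by
    intro c hc v hv
    have hne : v ≠ (g' : V) := by
      rintro rfl
      exact hv ⟨g', rfl⟩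
    rcases hc v hne with h1 | h1
    · rw [h1, kf_zero_left]
    · rw [h1]; exact hus v hv
  refine ⟨g', fun w => c₁ w, ⟨c₁, hc₁, hin c₁ hv1, rfl⟩, fun w => c₂ w,
    ⟨c₂, hc₂, hin c₂ hv2, rfl⟩, ?_, hg1, hg2, ?_⟩
  · funext w
    exact congrFun hsum w
  · intro w hw
    exact hd w (fun h0 => hw (Subtype.ext h0))

/-- an irreducible word of the minor has an irreducible lift -/
theorem irr_up (hiso : ∀ u ∈ L, ∀ w ∈ L, form u w = 0) (hP : Parts L e D P) (hQ : Q ⊆ P)
    (hl : ∀ v, v ≠ e → (D v).1 = 1) (hh : ∀ M ∈ Q, h M ∈ M) (heW : ∀ M ∈ Q, e ∉ M) {u : V → K}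
    (hu : u ∈ L)
    (hus : ∀ v, v ∉ Set.range (Subtype.val : W Q → V) → kf (u v) (sg D Q h v) = 0)
    (hue : u e = 0) (hirr : Irr (N L D Q h) (fun w => u w)) : Irr L u := by
  intro d hd hdu
  have hue1 : (u e).1 = 0 := by rw [hue]; rfl
  have hde : d e = 0 := by
    rcases hdu e with h1 | h1
    · exact h1
    · rw [h1, hue]
  have hds : ∀ v, v ∉ Set.range (Subtype.val : W Q → V) → kf (d v) (sg D Q h v) = 0 := by
    intro v hv
    rcases hdu v with h1 | h1
    · rw [h1, kf_zero_left]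
    · rw [h1]; exact hus v hv
  have hleu : ∀ v, v ∉ Set.range (Subtype.val : W Q → V) → u v = 0 ∨ u v = D v :=
    fun v hv => le_D hiso hP hQ hl hh hu hue1 hus hv
  have hhu : ∀ M ∈ Q, u (h M) = 0 := fun M hM => eq_zero_h hiso hP hQ hl hh hu hue1 hus hM
  have hhd : ∀ M ∈ Q, d (h M) = 0 := by
    intro M hM
    rcases hdu (h M) with h1 | h1
    · exact h1
    · rw [h1, hhu M hM]
  have key : ∀ x ∈ L, x e = 0 → (∀ v, v ∈ Set.range (Subtype.val : W Q → V) → x v = 0) →
      (∀ v, v ∉ Set.range (Subtype.val : W Q → V) → x v = 0 ∨ x v = D v) →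
      (∀ M ∈ Q, x (h M) = 0) → x = 0 := by
    intro x hx hxe hx1 hx2 hx3
    refine lift_zero hP hQ hh ⟨hx, ?_, Or.inl hxe⟩ hx1 hx3
    intro v _
    by_cases hv : v ∈ Set.range (Subtype.val : W Q → V)
    · exact Or.inl (hx1 v hv)
    · exact hx2 v hv
  have hdD : ∀ v, v ∉ Set.range (Subtype.val : W Q → V) → d v = 0 ∨ d v = D v := by
    intro v hv
    rcases hdu v with h1 | h1
    · exact Or.inl h1
    · rw [h1]; exact hleu v hv
  rcases hirr (fun w => d w) ⟨d, hd, hds, rfl⟩ (fun w => hdu w) with h1 | h1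
  · left
    refine key d hd hde ?_ hdD hhd
    rintro v ⟨w, rfl⟩
    exact congrFun h1 w
  · right
    have h2 : d + u = 0 := by
      refine key (d + u) (L.add_mem hd hu) (by rw [Pi.add_apply, hde, hue, add_zero]) ?_ ?_ ?_
      · rintro v ⟨w, rfl⟩
        rw [Pi.add_apply, show d w.1 = u w.1 from congrFun h1 w, k_add_self]
      · intro v hv
        rw [Pi.add_apply]
        rcases hdu v with h3 | h3
        · rw [h3, zero_add]; exact hleu v hv
        · rw [h3, k_add_self]; exact Or.inl rfl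
      · intro M hM
        rw [Pi.add_apply, hhd M hM, hhu M hM, add_zero]
    rw [w_add_eq_iff] at h2
    rw [h2, zero_add]

/-- the own places of the side of an irreducible word of the minor which does not split are places
of the minor -/
theorem own_in (hiso : ∀ u ∈ L, ∀ w ∈ L, form u w = 0) (hP : Parts L e D P) (hQ : Q ⊆ P)
    (hl : ∀ v, v ≠ e → (D v).1 = 1) (hh : ∀ M ∈ Q, h M ∈ M) (heW : ∀ M ∈ Q, e ∉ M)
    (hS : RSides L e S) {u : V → K} (hu : u ∈ L)
    (hus : ∀ v, v ∉ Set.range (Subtype.val : W Q → V) → kf (u v) (sg D Q h v) = 0)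
    (hue : u e = 0) (hirr : Irr (N L D Q h) (fun w => u w)) {Z : Finset V} (hZ : S u Z) :
    (∃ g', Splits (N L D Q h) (fun w => u w) g') ∨ ∀ v ∈ Z, ∀ M ∈ Q, v ∉ M := by
  by_cases hall : ∀ v ∈ Z, ∀ M ∈ Q, v ∉ M
  · exact Or.inr hall
  left
  push Not at hall
  obtain ⟨v, hvZ, M, hM, hvM⟩ := hall
  have hue1 : (u e).1 = 0 := by rw [hue]; rfl
  have heZ : e ∉ Z := hS.root u Z hZ
  have hu0Z : ∀ x ∈ Z, u x = 0 := hS.zero u Z hZ
  have hleu : ∀ x, x ∉ Set.range (Subtype.val : W Q → V) → u x = 0 ∨ u x = D x :=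
    fun x hx => le_D hiso hP hQ hl hh hu hue1 hus hx
  have hhu : ∀ M' ∈ Q, u (h M') = 0 := fun M' hM' => eq_zero_h hiso hP hQ hl hh hu hue1 hus hM'
  have hve : v ≠ e := fun h0 => hP.nmem M (hQ hM) (h0 ▸ hvM)
  have hDv : D v ≠ 0 := by
    intro h0
    have := hl v hve
    rw [h0] at this
    exact absurd this (by decide)
  have pwe : pw D e M e = z := by simp [pw]
  have pwM : ∀ x ∈ M, pw D e M x = D x := by
    intro x hx
    have hxe : x ≠ e := fun h0 => hP.nmem M (hQ hM) (h0 ▸ hx)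
    unfold pw
    rw [if_neg hxe, if_pos hx]
  have pwn : ∀ x, x ≠ e → x ∉ M → pw D e M x = 0 := by
    intro x hxe hx
    unfold pw
    rw [if_neg hxe, if_neg hx]
  obtain ⟨k, hk, hkZ, hk0, hks⟩ := hS.part u Z hZ (pw D e M) (hP.word M (hQ hM)) (by
    intro x hx
    have hxe : x ≠ e := fun h0 => hx (h0 ▸ hue)
    by_cases hxM : x ∈ M
    · right
      rw [pwM x hxM]
      rcases hleu x ((nmem_range_iff Q x).2 ⟨M, hM, hxM⟩) with h1 | h1
      · exact absurd h1 hx
      · exact h1.symm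
    · left
      exact pwn x hxe hxM)
  have hke : k e = 0 := hk0 e hue heZ
  have hkv : k v = D v := by rw [hkZ v hvZ, pwM v hvM]
  -- values of `k`
  have hkD : ∀ x, x ∉ Set.range (Subtype.val : W Q → V) → k x = 0 ∨ k x = D x := by
    intro x hx
    by_cases hux : u x = 0
    · by_cases hxZ : x ∈ Z
      · rw [hkZ x hxZ]
        by_cases hxM : x ∈ M
        · exact Or.inr (pwM x hxM)
        · exact Or.inl (pwn x (fun h0 => heZ (h0 ▸ hxZ)) hxM)
      · exact Or.inl (hk0 x hux hxZ)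
    · rcases hks x hux with h1 | h1
      · exact Or.inl h1
      · rw [h1]; exact hleu x hx
  have hkW : ∀ x, x ∈ Set.range (Subtype.val : W Q → V) → k x = 0 ∨ k x = u x := by
    rintro x ⟨w, rfl⟩
    by_cases hux : u w.1 = 0
    · left
      by_cases hxZ : w.1 ∈ Z
      · rw [hkZ _ hxZ]
        exact pwn _ (fun h0 => heZ (h0 ▸ hxZ)) (w.2 M hM)
      · exact hk0 _ hux hxZ
    · exact hks _ hux
  have hkh : ∀ M' ∈ Q, M' ≠ M → k (h M') = 0 := by
    intro M' hM' hne
    have hnM : h M' ∉ M := fun h0 =>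
      Finset.disjoint_left.1 (hP.disj M' (hQ hM') M (hQ hM) hne) (hh M' hM') h0
    by_cases hxZ : h M' ∈ Z
    · rw [hkZ _ hxZ]
      exact pwn _ (fun h0 => heZ (h0 ▸ hxZ)) hnM
    · exact hk0 _ (hhu M' hM') hxZ
  have hMrange : h M ∉ Set.range (Subtype.val : W Q → V) :=
    (nmem_range_iff Q _).2 ⟨M, hM, hh M hM⟩
  -- words which are `≤ D` and vanish at the marks lie in the minor
  have inN : ∀ x ∈ L, (∀ y, y ∉ Set.range (Subtype.val : W Q → V) → x y = 0 ∨ x y = D y) →
      (∀ M' ∈ Q, x (h M') = 0) → (fun w : W Q => x w) ∈ N L D Q h := by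
    intro x hx hx1 hx2
    refine ⟨x, hx, ?_, rfl⟩
    intro y hy
    obtain ⟨M', hM', hyM'⟩ := (nmem_range_iff Q y).1 hy
    by_cases hyh : y = h M'
    · rw [hyh, hx2 M' hM', kf_zero_left]
    · rw [sg_ne hP hQ hh hM' hyM' hyh]
      rcases hx1 y hy with h1 | h1
      · rw [h1, kf_zero_left]
      · rw [h1, kf_self]
  by_cases hkM : k (h M) = 0
  · exfalso
    have hkh' : ∀ M' ∈ Q, k (h M') = 0 := by
      intro M' hM'
      by_cases hne : M' = M
      · rw [hne]; exact hkM
      · exact hkh M' hM' hne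
    have key : ∀ x ∈ L, x e = 0 → (∀ y, y ∈ Set.range (Subtype.val : W Q → V) → x y = 0) →
        (∀ y, y ∉ Set.range (Subtype.val : W Q → V) → x y = 0 ∨ x y = D y) →
        (∀ M' ∈ Q, x (h M') = 0) → x v = D v → False := by
      intro x hx hxe hx1 hx2 hx3 hxv
      have h0 : x = 0 := by
        refine lift_zero hP hQ hh ⟨hx, ?_, Or.inl hxe⟩ hx1 hx3
        intro y _
        by_cases hy : y ∈ Set.range (Subtype.val : W Q → V)
        · exact Or.inl (hx1 y hy)
        · exact hx2 y hy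
      rw [h0] at hxv
      exact hDv hxv.symm
    rcases hirr (fun w => k w) (inN k hk hkD hkh') (fun w => hkW w ⟨w, rfl⟩) with h1 | h1
    · refine key k hk hke ?_ hkD hkh' hkv
      rintro y ⟨w, rfl⟩
      exact congrFun h1 w
    · refine key (k + u) (L.add_mem hk hu) (by rw [Pi.add_apply, hke, hue, add_zero]) ?_ ?_ ?_ ?_
      · rintro y ⟨w, rfl⟩
        rw [Pi.add_apply, show k w.1 = u w.1 from congrFun h1 w, k_add_self]
      · intro y hy
        rw [Pi.add_apply]
        rcases hkD y hy with h2 | h2 <;> rcases hleu y hy with h3 | h3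
        · left; rw [h2, h3, add_zero]
        · right; rw [h2, h3, zero_add]
        · right; rw [h2, h3, add_zero]
        · left; rw [h2, h3, k_add_self]
      · intro M' hM'
        rw [Pi.add_apply, hkh' M' hM', hhu M' hM', add_zero]
      · rw [Pi.add_apply, hkv, hu0Z v hvZ, add_zero]
  · -- the word splits at `e`
    have hkMD : k (h M) = D (h M) := by
      rcases hkD (h M) hMrange with h1 | h1
      · exact absurd h1 hkM
      · exact h1
    set a : V → K := k + pw D e M with ha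
    have haL : a ∈ L := L.add_mem hk (hP.word M (hQ hM))
    have hae : a e = z := by rw [ha, Pi.add_apply, hke, pwe, zero_add]
    have hah : ∀ M' ∈ Q, a (h M') = 0 := by
      intro M' hM'
      by_cases hne : M' = M
      · rw [hne, ha, Pi.add_apply, hkMD, pwM _ (hh M hM), k_add_self]
      · have hnM : h M' ∉ M := fun h0 =>
          Finset.disjoint_left.1 (hP.disj M' (hQ hM') M (hQ hM) hne) (hh M' hM') h0
        have hne' : h M' ≠ e := fun h0 => hP.nmem M' (hQ hM') (h0 ▸ hh M' hM')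
        rw [ha, Pi.add_apply, hkh M' hM' hne, pwn _ hne' hnM, add_zero]
    have haD : ∀ y, y ∉ Set.range (Subtype.val : W Q → V) → a y = 0 ∨ a y = D y := by
      intro y hy
      have hye : y ≠ e := by
        obtain ⟨M', hM', hyM'⟩ := (nmem_range_iff Q y).1 hy
        exact fun h0 => hP.nmem M' (hQ hM') (h0 ▸ hyM')
      rw [ha, Pi.add_apply]
      by_cases hyM : y ∈ M
      · rw [pwM y hyM]
        rcases hkD y hy with h1 | h1
        · right; rw [h1, zero_add]
        · left; rw [h1, k_add_self]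
      · rw [pwn y hye hyM, add_zero]
        exact hkD y hy
    have hbD : ∀ y, y ∉ Set.range (Subtype.val : W Q → V) → (a + u) y = 0 ∨ (a + u) y = D y := by
      intro y hy
      rw [Pi.add_apply]
      rcases haD y hy with h2 | h2 <;> rcases hleu y hy with h3 | h3
      · left; rw [h2, h3, add_zero]
      · right; rw [h2, h3, zero_add]
      · right; rw [h2, h3, add_zero]
      · left; rw [h2, h3, k_add_self]
    have haW : ∀ w : W Q, w.1 ≠ e → a w = k w := by
      intro w hw
      rw [ha, Pi.add_apply, pwn w.1 hw (w.2 M hM), add_zero]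
    refine ⟨⟨e, heW⟩, fun w => a w, inN a haL haD hah, fun w => (a + u) w,
      inN (a + u) (L.add_mem haL hu) hbD (by
        intro M' hM'
        rw [Pi.add_apply, hah M' hM', hhu M' hM', add_zero]), ?_, hae, ?_, ?_⟩
    · funext w
      show a w + (a w + u w) = u w
      rw [← add_assoc, k_add_self, zero_add]
    · show a e + u e = z
      rw [hae, hue, add_zero]
    · intro w hw
      have hwe : w.1 ≠ e := fun h0 => hw (Subtype.ext h0)
      show a w = 0 ∨ a w + u w = 0
      rw [haW w hwe]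
      rcases hkW w ⟨w, rfl⟩ with h1 | h1
      · exact Or.inl h1
      · right; rw [h1, k_add_self]

/-- **the rooted minors have sides** -/
theorem rsides_minor (hiso : ∀ u ∈ L, ∀ w ∈ L, form u w = 0) (hP : Parts L e D P) (hQ : Q ⊆ P)
    (hl : ∀ v, v ≠ e → (D v).1 = 1) (hh : ∀ M ∈ Q, h M ∈ M) (heW : ∀ M ∈ Q, e ∉ M)
    (hS : RSides L e S) : RSides (N L D Q h) (⟨e, heW⟩ : W Q) (RS L e D Q h S) := by
  classical
  have zfree_up : ∀ w ∈ L, (∀ v, v ∉ Set.range (Subtype.val : W Q → V) →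
      kf (w v) (sg D Q h v) = 0) → ZFree (fun x : W Q => w x) → ZFree w := by
    intro w _ hws hwz v
    by_cases hvW : v ∈ Set.range (Subtype.val : W Q → V)
    · obtain ⟨x, rfl⟩ := hvW
      exact hwz x
    · obtain ⟨M, hM, hvM⟩ := (nmem_range_iff Q v).1 hvW
      have hve : v ≠ e := fun h0 => hP.nmem M (hQ hM) (h0 ▸ hvM)
      have h1 := hws v hvW
      rw [kf_eq_zero_iff _ _ (sg_ne_zero hl hve)] at h1
      intro h2
      rcases h1 with h1 | h1
      · rw [h2] at h1; exact absurd h1 (by decide)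
      · have h3 := sg_fst (Q := Q) (h := h) hl hve
        rw [← h1, h2] at h3
        exact absurd h3 (by decide)
  -- from a side of the lift
  have make : ∀ w ∈ L, (∀ v, v ∉ Set.range (Subtype.val : W Q → V) →
      kf (w v) (sg D Q h v) = 0) → w e = 0 → ZFree w → Irr (N L D Q h) (fun x => w x) →
      ∀ Z, Z.Nonempty → S w Z →
      (∃ g, Splits (N L D Q h) (fun x => w x) g) ∨
        ∃ Y : Finset (W Q), Y.Nonempty ∧ RS L e D Q h S (fun x => w x) Y ∧
          (∀ x, x ∈ Y ↔ x.1 ∈ Z) := by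
    intro w hw hws hwe hwz hirr Z hZne hZ
    rcases own_in hiso hP hQ hl hh heW hS hw hws hwe hirr hZ with h1 | h1
    · exact Or.inl h1
    · right
      obtain ⟨v, hv⟩ := hZne
      refine ⟨Finset.univ.filter fun x => x.1 ∈ Z, ⟨⟨v, h1 v hv⟩, ?_⟩, ?_, ?_⟩
      · rw [Finset.mem_filter]
        exact ⟨Finset.mem_univ _, hv⟩
      · refine ⟨w, hw, Z, hZ, hwe, hwz, hws, rfl, h1, ?_⟩
        intro x
        rw [Finset.mem_filter]
        exact ⟨fun h0 => h0.2, fun h0 => ⟨Finset.mem_univ _, h0⟩⟩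
      · intro x
        rw [Finset.mem_filter]
        exact ⟨fun h0 => h0.2, fun h0 => ⟨Finset.mem_univ _, h0⟩⟩
  refine ⟨?_, ?_, ?_, ?_, ?_⟩
  · rintro u Y ⟨w, hw, Z, hZ, hwe, hwz, hws, rfl, hZW, hY⟩ heY
    exact hS.root w Z hZ ((hY _).1 heY)
  · rintro u Y ⟨w, hw, Z, hZ, hwe, hwz, hws, rfl, hZW, hY⟩ v hv
    exact hS.zero w Z hZ v.1 ((hY v).1 hv)
  · rintro u ⟨w, hw, hws, rfl⟩ huz hue hu0 hirr
    have hwe : w e = 0 := hue
    have hwz := zfree_up w hw hws huz
    have hw0 : w ≠ 0 := by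
      rintro rfl
      exact hu0 rfl
    have hirrL := irr_up hiso hP hQ hl hh heW hw hws hwe hirr
    rcases hS.ex w hw hwz hwe hw0 hirrL with ⟨g, hg⟩ | ⟨Z, hZne, hZ⟩
    · exact Or.inl (splits_down hiso hP hQ hl hh heW hws hwe hg)
    · rcases make w hw hws hwe hwz hirr Z hZne hZ with h1 | ⟨Y, hYne, hY, -⟩
      · exact Or.inl h1
      · exact Or.inr ⟨Y, hYne, hY⟩
  · rintro u Y ⟨w, hw, Z, hZ, hwe, hwz, hws, rfl, hZW, hY⟩ k ⟨k', hk', hks, rfl⟩ hcov
    have hwe1 : (w e).1 = 0 := by rw [hwe]; rfl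
    have hlew : ∀ x, x ∉ Set.range (Subtype.val : W Q → V) → w x = 0 ∨ w x = D x :=
      fun x hx => le_D hiso hP hQ hl hh hw hwe1 hws hx
    have hhw : ∀ M' ∈ Q, w (h M') = 0 := fun M' hM' => eq_zero_h hiso hP hQ hl hh hw hwe1 hws hM'
    obtain ⟨c, hc, hcZ, hc0, hcs⟩ := hS.part w Z hZ k' hk' (by
      intro x hx
      by_cases hxW : x ∈ Set.range (Subtype.val : W Q → V)
      · obtain ⟨y, rfl⟩ := hxW
        exact hcov y hx
      · obtain ⟨M, hM, hxM⟩ := (nmem_range_iff Q x).1 hxW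
        have hxe : x ≠ e := fun h0 => hP.nmem M (hQ hM) (h0 ▸ hxM)
        have hxh : x ≠ h M := fun h0 => hx (h0 ▸ hhw M hM)
        have h1 := hks x hxW
        rw [kf_eq_zero_iff _ _ (sg_ne_zero hl hxe), sg_ne hP hQ hh hM hxM hxh] at h1
        rcases hlew x hxW with h2 | h2
        · exact absurd h2 hx
        · rw [h2]; exact h1)
    refine ⟨fun x => c x, ⟨c, hc, ?_, rfl⟩, ?_, ?_, ?_⟩
    · intro x hx
      by_cases hwx : w x = 0
      · by_cases hxZ : x ∈ Z
        · obtain ⟨M, hM, hxM⟩ := (nmem_range_iff Q x).1 hx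
          exact absurd hxM (hZW x hxZ M hM)
        · rw [hc0 x hwx hxZ, kf_zero_left]
      · rcases hcs x hwx with h1 | h1
        · rw [h1, kf_zero_left]
        · rw [h1]; exact hws x hx
    · intro v hv
      exact hcZ v.1 ((hY v).1 hv)
    · intro v hv hvY
      exact hc0 v.1 hv (fun h0 => hvY ((hY v).2 h0))
    · intro v hv
      exact hcs v.1 hv
  · rintro u Y ⟨w, hw, Z, hZ, hwe, hwz, hws, rfl, hZW, hY⟩ hirr k ⟨k', hk', hks, rfl⟩ hkz hkne
      hkirr hcov hk0
    have hwe1 : (w e).1 = 0 := by rw [hwe]; rfl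
    have heZ : e ∉ Z := hS.root w Z hZ
    have hlew : ∀ x, x ∉ Set.range (Subtype.val : W Q → V) → w x = 0 ∨ w x = D x :=
      fun x hx => le_D hiso hP hQ hl hh hw hwe1 hws hx
    have hhw : ∀ M' ∈ Q, w (h M') = 0 := fun M' hM' => eq_zero_h hiso hP hQ hl hh hw hwe1 hws hM'
    have hke : k' e = 0 := hk0 ⟨e, heW⟩ hwe (fun h0 => heZ ((hY _).1 h0))
    have hke1 : (k' e).1 = 0 := by rw [hke]; rfl
    have hlek : ∀ x, x ∉ Set.range (Subtype.val : W Q → V) → k' x = 0 ∨ k' x = D x :=
      fun x hx => le_D hiso hP hQ hl hh hk' hke1 hks hx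
    have hhk : ∀ M' ∈ Q, k' (h M') = 0 := fun M' hM' => eq_zero_h hiso hP hQ hl hh hk' hke1 hks hM'
    have hcov' : ∀ x, w x ≠ 0 → k' x = 0 ∨ k' x = w x := by
      intro x hx
      by_cases hxW : x ∈ Set.range (Subtype.val : W Q → V)
      · obtain ⟨y, rfl⟩ := hxW
        exact hcov y hx
      · rcases hlek x hxW with h1 | h1
        · exact Or.inl h1
        · right
          rcases hlew x hxW with h2 | h2
          · exact absurd h2 hx
          · rw [h1, h2]
    obtain ⟨c, hc, hcZ, hc0, hcs⟩ := hS.part w Z hZ k' hk' hcov'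
    have hce : c e = 0 := hc0 e hwe heZ
    have hcD : ∀ x, x ∉ Set.range (Subtype.val : W Q → V) → c x = 0 ∨ c x = D x := by
      intro x hx
      by_cases hwx : w x = 0
      · by_cases hxZ : x ∈ Z
        · rw [hcZ x hxZ]; exact hlek x hx
        · exact Or.inl (hc0 x hwx hxZ)
      · rcases hcs x hwx with h1 | h1
        · exact Or.inl h1
        · rw [h1]; exact hlew x hx
    have hch : ∀ M' ∈ Q, c (h M') = 0 := by
      intro M' hM'
      by_cases hxZ : h M' ∈ Z
      · rw [hcZ _ hxZ]; exact hhk M' hM'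
      · exact hc0 _ (hhw M' hM') hxZ
    -- the difference
    set d : V → K := k' + c with hd
    have hdL : d ∈ L := L.add_mem hk' hc
    have hde : d e = 0 := by rw [hd, Pi.add_apply, hke, hce, add_zero]
    have hdh : ∀ M' ∈ Q, d (h M') = 0 := by
      intro M' hM'
      rw [hd, Pi.add_apply, hhk M' hM', hch M' hM', add_zero]
    have hdD : ∀ x, x ∉ Set.range (Subtype.val : W Q → V) → d x = 0 ∨ d x = D x := by
      intro x hx
      rw [hd, Pi.add_apply]
      rcases hlek x hx with h2 | h2 <;> rcases hcD x hx with h3 | h3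
      · left; rw [h2, h3, add_zero]
      · right; rw [h2, h3, zero_add]
      · right; rw [h2, h3, add_zero]
      · left; rw [h2, h3, k_add_self]
    have inN : ∀ x ∈ L, (∀ y, y ∉ Set.range (Subtype.val : W Q → V) → x y = 0 ∨ x y = D y) →
        (∀ M' ∈ Q, x (h M') = 0) → (fun w : W Q => x w) ∈ N L D Q h := by
      intro x hx hx1 hx2
      refine ⟨x, hx, ?_, rfl⟩
      intro y hy
      obtain ⟨M', hM', hyM'⟩ := (nmem_range_iff Q y).1 hy
      by_cases hyh : y = h M'
      · rw [hyh, hx2 M' hM', kf_zero_left]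
      · rw [sg_ne hP hQ hh hM' hyM' hyh]
        rcases hx1 y hy with h1 | h1
        · rw [h1, kf_zero_left]
        · rw [h1, kf_self]
    have hdw : ∀ y : W Q, d y = 0 ∨ d y = w y := by
      intro y
      rw [hd, Pi.add_apply]
      by_cases hwy : w y.1 = 0
      · left
        by_cases hyZ : y.1 ∈ Z
        · rw [hcZ _ hyZ, k_add_self]
        · have h9 : k' y.1 = 0 := hk0 y hwy (fun h0 => hyZ ((hY y).1 h0))
          rw [hc0 _ hwy hyZ, h9, add_zero]
      · rcases hcov' _ hwy with h2 | h2 <;> rcases hcs _ hwy with h3 | h3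
        · left; rw [h2, h3, add_zero]
        · right; rw [h2, h3, zero_add]
        · right; rw [h2, h3, add_zero]
        · left; rw [h2, h3, k_add_self]
    have key : ∀ x ∈ L, x e = 0 → (∀ y, y ∈ Set.range (Subtype.val : W Q → V) → x y = 0) →
        (∀ y, y ∉ Set.range (Subtype.val : W Q → V) → x y = 0 ∨ x y = D y) →
        (∀ M' ∈ Q, x (h M') = 0) → x = 0 := by
      intro x hx hxe hx1 hx2 hx3
      refine lift_zero hP hQ hh ⟨hx, ?_, Or.inl hxe⟩ hx1 hx3
      intro y _
      by_cases hy : y ∈ Set.range (Subtype.val : W Q → V)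
      · exact Or.inl (hx1 y hy)
      · exact hx2 y hy
    -- `k'` vanishes off the support of `w` and off `Z`
    have hk0' : ∀ x, w x = 0 → x ∉ Z → k' x = 0 := by
      rcases hirr (fun y => d y) (inN d hdL hdD hdh) hdw with h1 | h1
      · have h2 : d = 0 := key d hdL hde (by
          rintro y ⟨x, rfl⟩
          exact congrFun h1 x) hdD hdh
        intro x hx hxZ
        have h3 := congrFun h2 x
        rw [hd, Pi.add_apply, hc0 x hx hxZ, add_zero] at h3
        exact h3
      · have h2 : d + w = 0 := key (d + w) (L.add_mem hdL hw)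
          (by rw [Pi.add_apply, hde, hwe, add_zero]) (by
            rintro y ⟨x, rfl⟩
            rw [Pi.add_apply, show d x.1 = w x.1 from congrFun h1 x, k_add_self]) (by
            intro y hy
            rw [Pi.add_apply]
            rcases hdD y hy with h2 | h2 <;> rcases hlew y hy with h3 | h3
            · left; rw [h2, h3, add_zero]
            · right; rw [h2, h3, zero_add]
            · right; rw [h2, h3, add_zero]
            · left; rw [h2, h3, k_add_self]) (by
            intro M' hM'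
            rw [Pi.add_apply, hdh M' hM', hhw M' hM', add_zero])
        intro x hx hxZ
        have h3 := congrFun h2 x
        rw [Pi.add_apply, hx, add_zero, hd, Pi.add_apply, hc0 x hx hxZ, add_zero] at h3
        exact h3
    have hkz' := zfree_up k' hk' hks hkz
    have hk'0 : k' ≠ 0 := by
      rintro rfl
      exact hkne rfl
    have hkirr' := irr_up hiso hP hQ hl hh heW hk' hks hke hkirr
    have hwirr := irr_up hiso hP hQ hl hh heW hw hws hwe hirr
    rcases hS.mono w Z hZ hwirr k' hk' hkz' hk'0 hkirr' hcov' hk0' with ⟨g, hg⟩ | ⟨Z', hZZ, hne, hZ'⟩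
    · exact Or.inl (splits_down hiso hP hQ hl hh heW hks hke hg)
    · rcases make k' hk' hks hke hkz' hkirr Z' hne hZ' with h1 | ⟨Y', hY'ne, hY', hYY⟩
      · exact Or.inl h1
      · refine Or.inr ⟨Y', ?_, hY'ne, hY'⟩
        intro x hx
        exact (hY x).2 (hZZ ((hYY x).1 hx))

end Pool.Agent.H41.Q
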